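import Pool.Agent.H44.ModeAvd3

/-!
# The mode of the domination polynomial can be linearly far from the average size

The dominating sets of the graph `G e` (edges `e` random and symmetrised) split into two classes of
equal size whose members have sizes concentrated around two values that differ by `5 a / 36`,
where the number of vertices is `19752 a`. The average size of a dominating set is close to the
middle of these two values and all modes are close to one of them.
-/

set_option autoImplicit false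

namespace Pool.Agent.Results.MP_fd33cb_co.LinearGap

open Finset

/-- `S` is a dominating set of `G`. -/
def IsDominating {V : Type*} (G : SimpleGraph V) (S : Finset V) : Prop :=
  ∀ v, v ∈ S ∨ ∃ u ∈ S, G.Adj v u

/-- `d_i(G)`: the number of dominating sets of size `i`. -/
noncomputable def domCount {V : Type*} (G : SimpleGraph V) (i : ℕ) : ℕ :=
  {S : Finset V | S.card = i ∧ IsDominating G S}.ncard

/-- The domination polynomial `D(G, x) = ∑ d_i(G) x ^ i`. -/
noncomputable def domPoly {V : Type*} [Fintype V] (G : SimpleGraph V) : Polynomial ℝ :=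
  ∑ i ∈ range (Fintype.card V + 1), Polynomial.C (domCount G i : ℝ) * Polynomial.X ^ i

/-- `avd(G) = D'(G, 1) / D(G, 1)`. -/
noncomputable def avd {V : Type*} [Fintype V] (G : SimpleGraph V) : ℝ :=
  (domPoly G).derivative.eval 1 / (domPoly G).eval 1

/-- `m` is a mode of `D(G, x)`. -/
def IsMode {V : Type*} (G : SimpleGraph V) (m : ℕ) : Prop := ∀ i, domCount G i ≤ domCount G m

lemma avd_eq {V : Type*} [Fintype V] (G : SimpleGraph V) :
    avd G = (∑ i ∈ range (Fintype.card V + 1), (i : ℝ) * domCount G i) /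
      ∑ i ∈ range (Fintype.card V + 1), (domCount G i : ℝ) := by
  unfold avd domPoly
  congr 1
  · rw [Polynomial.derivative_sum, Polynomial.eval_finsetSum]
    apply sum_congr rfl
    intro i _
    simp [Polynomial.derivative_X_pow]
    ring
  · rw [Polynomial.eval_finsetSum]
    apply sum_congr rfl
    intro i _
    simp

/-- The counts as cardinalities of filtered sets of sizes. -/
lemma sum_fib {α : Type*} (A : Finset α) (s : α → ℕ) (n : ℕ) (hs : ∀ c ∈ A, s c ≤ n) :
    ∑ i ∈ range (n + 1), (i : ℝ) * ((A.filter fun c => s c = i).card : ℝ) = ∑ c ∈ A, (s c : ℝ) ∧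
      ∑ i ∈ range (n + 1), ((A.filter fun c => s c = i).card : ℝ) = A.card := by
  have hm : ∀ c ∈ A, s c ∈ range (n + 1) := fun c hc => by
    have := hs c hc
    rw [mem_range]; omega
  constructor
  · rw [← Finset.sum_fiberwise_of_maps_to hm]
    apply sum_congr rfl
    intro i _
    rw [card_eq_sum_ones, Nat.cast_sum, mul_sum]
    apply sum_congr rfl
    intro c hc
    rw [(mem_filter.1 hc).2]
    simp
  · rw [← Nat.cast_sum]
    congr 1
    exact (card_eq_sum_card_fiberwise (fun c hc => by simpa using hm c hc)).symm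

lemma IsMode_le {V : Type*} [Fintype V] (G : SimpleGraph V) (m : ℕ) (h : IsMode G m) :
    m ≤ Fintype.card V := by
  by_contra hcon
  push Not at hcon
  have h0 : domCount G m = 0 := by
    unfold domCount
    rw [Set.ncard_eq_zero (Set.toFinite _)]
    ext S
    simp only [Set.mem_ofPred_eq, Set.mem_empty_iff_false, iff_false, not_and]
    intro hS
    have := card_le_univ S
    omega
  have h1 : 0 < domCount G (Fintype.card V) := by
    unfold domCount
    rw [Set.ncard_pos (Set.toFinite _)]
    exact ⟨univ, by rw [Set.mem_ofPred_eq]; exact ⟨card_univ, fun v => Or.inl (mem_univ v)⟩⟩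
  have := h (Fintype.card V)
  omega

lemma exists_mode {V : Type*} [Fintype V] (G : SimpleGraph V) : ∃ m, IsMode G m := by
  obtain ⟨m, _, hm⟩ := Finset.exists_max_image (range (Fintype.card V + 1)) (domCount G)
    ⟨0, by simp⟩
  refine ⟨m, fun i => ?_⟩
  by_cases hi : i < Fintype.card V + 1
  · exact hm i (by simpa using hi)
  · have h0 : domCount G i = 0 := by
      unfold domCount
      rw [Set.ncard_eq_zero (Set.toFinite _)]
      ext S
      simp only [Set.mem_ofPred_eq, Set.mem_empty_iff_false, iff_false, not_and]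
      intro hS
      have := card_le_univ S
      omega
    omega

lemma avd_mem {V : Type*} [Fintype V] (G : SimpleGraph V) :
    0 ≤ avd G ∧ avd G ≤ Fintype.card V := by
  rw [avd_eq]
  have hnn : (0 : ℝ) ≤ ∑ i ∈ range (Fintype.card V + 1), (domCount G i : ℝ) :=
    sum_nonneg fun i _ => Nat.cast_nonneg _
  constructor
  · apply div_nonneg _ hnn
    exact sum_nonneg fun i _ => by positivity
  · rcases hnn.eq_or_lt with h | h
    · rw [← h, div_zero]; positivity
    · rw [div_le_iff₀ h, mul_sum]
      apply sum_le_sum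
      intro i hi
      have : (i : ℝ) ≤ Fintype.card V := by
        rw [mem_range] at hi
        exact_mod_cast Nat.lt_succ_iff.1 hi
      gcongr

/-- Domination in a graph with added isolated vertices. -/
lemma dom_sum {V W : Type*} (G : SimpleGraph V) (S : Finset (V ⊕ W)) :
    IsDominating (G.sum (⊥ : SimpleGraph W)) S ↔
      IsDominating G S.toLeft ∧ ∀ w, Sum.inr w ∈ S := by
  constructor
  · intro h
    refine ⟨fun v => ?_, fun w => ?_⟩
    · rcases h (Sum.inl v) with h1 | ⟨u, hu, hadj⟩
      · left; simpa using h1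
      · right
        rcases u with u | u
        · exact ⟨u, by simpa using hu, by simpa using hadj⟩
        · simp at hadj
    · rcases h (Sum.inr w) with h1 | ⟨u, hu, hadj⟩
      · exact h1
      · rcases u with u | u <;> simp at hadj
  · rintro ⟨h1, h2⟩ (v | w)
    · rcases h1 v with h | ⟨u, hu, hadj⟩
      · left; simpa using h
      · right; exact ⟨Sum.inl u, by simpa using hu, by simpa using hadj⟩
    · exact Or.inl (h2 w)

open Pool.Agent.H224R3 in
lemma domCount_pad {a M p : ℕ} (e : Fin M → Fin a × Fin a) (i : ℕ) :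
    domCount ((Dom.G e).sum (⊥ : SimpleGraph (Fin p))) i =
      ((univ.filter (Dom.Dm e)).filter fun c => Dom.sz c + p = i).card := by
  unfold domCount
  have : {S : Finset (Dom.V a M ⊕ Fin p) | S.card = i ∧
      IsDominating ((Dom.G e).sum (⊥ : SimpleGraph (Fin p))) S} =
      (fun c => ((Dom.toC a M).symm c).disjSum (univ : Finset (Fin p))) ''
        (((univ.filter (Dom.Dm e)).filter fun c => Dom.sz c + p = i : Finset (Dom.C a M)) :
          Set (Dom.C a M)) := by
    ext S
    simp only [Set.mem_ofPred_eq, Set.mem_image, coe_filter, mem_filter, mem_univ, true_and]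
    rw [dom_sum]
    constructor
    · rintro ⟨h1, h2, h3⟩
      have hR : S.toRight = univ := by ext w; simp [h3 w]
      refine ⟨Dom.toC a M S.toLeft, ⟨(Dom.Dm_toC e S.toLeft).2 h2, ?_⟩, ?_⟩
      · rw [Dom.sz_toC]
        have := card_toLeft_add_card_toRight (u := S)
        rw [hR, card_univ, Fintype.card_fin] at this
        omega
      · simp only [Equiv.symm_apply_apply]
        rw [← hR]
        exact toLeft_disjSum_toRight
    · rintro ⟨c, ⟨h1, h2⟩, rfl⟩
      obtain ⟨S', rfl⟩ := (Dom.toC a M).surjective c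
      simp only [Equiv.symm_apply_apply]
      refine ⟨?_, ?_, ?_⟩
      · rw [card_disjSum, card_univ, Fintype.card_fin, ← Dom.sz_toC]; exact h2
      · rw [toLeft_disjSum]; exact (Dom.Dm_toC e S').1 h1
      · intro w; simp
  rw [this, Set.ncard_image_of_injective, Set.ncard_coe_finset]
  intro c c' h
  have h2 := (disjSum_inj.1 h).1
  exact (Dom.toC a M).symm.injective h2

lemma ZZ_eq (a m : ℕ) : Pool.Agent.H44.ModeAvd.ZZ a m = 9 ^ a * (8 ^ a * 2 ^ (m + m)) := by
  unfold Pool.Agent.H44.ModeAvd.ZZ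
  have : (2 : ℝ) ^ (m + m) = 4 ^ m := by
    rw [← two_mul, pow_mul]; norm_num
  rw [this]
  ring

/-- Numerical estimate. -/
lemma exp_small (a : ℝ) (ha : 10 ^ 23 ≤ a) :
    5 * Real.exp (-(9 / 10 ^ 9 * a)) * (20000 * a) * 2 < 1 := by
  have ha0 : 0 < a := lt_of_lt_of_le (by norm_num) ha
  set x := 9 / 10 ^ 9 * a with hx
  have hx0 : 0 < x := by positivity
  have h1 : x ^ 2 / 2 ≤ Real.exp x := by
    have := Real.quadratic_le_exp_of_nonneg hx0.le
    linarith
  have h2 : Real.exp (-x) ≤ 2 / x ^ 2 := by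
    rw [Real.exp_neg, inv_eq_one_div, div_le_div_iff₀ (Real.exp_pos x) (by positivity)]
    linarith
  calc 5 * Real.exp (-x) * (20000 * a) * 2 ≤ 5 * (2 / x ^ 2) * (20000 * a) * 2 := by gcongr
    _ = 400000 / ((9 / 10 ^ 9) ^ 2 * a) := by
      rw [hx]; field_simp; ring
    _ < 1 := by
      rw [div_lt_one (by positivity)]
      calc (400000 : ℝ) < (9 / 10 ^ 9) ^ 2 * 10 ^ 23 := by norm_num
        _ ≤ _ := by gcongr

open Pool.Agent.H224R3 Pool.Agent.H44.ModeAvd in
/-- The main construction. -/
theorem main (t p : ℕ) (ht : 10 ^ 21 ≤ t) (hp : p < 1975200) :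
    ∃ (V : Type) (_ : Fintype V) (G : SimpleGraph V), Fintype.card V = 1975200 * t + p ∧
      ∀ k, IsMode G k → (4 * t : ℝ) ≤ |(k : ℝ) - avd G| := by
  set a := 100 * t with ha
  set m := 9872 * a with hm
  have ha0 : 0 < a := by omega
  have haR : (0 : ℝ) < a := by exact_mod_cast ha0
  have haRt : (a : ℝ) = 100 * t := by rw [ha]; push_cast; ring
  have hmR : (m : ℝ) = 9872 * a := by rw [hm]; push_cast; ring
  have ha23 : (10 : ℝ) ^ 23 ≤ a := by
    have : 10 ^ 23 ≤ a := by omega
    exact_mod_cast this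
  obtain ⟨f, hf⟩ := exists_f a m t ha0 (2 / 10 ^ 6) (a / 100) (by norm_num) (by norm_num)
  have hbad : ((Bad t (a / 100 : ℝ) f).card : ℝ) ≤
      ZZ a m * (5 * Real.exp (-(9 / 10 ^ 9 * a))) := by
    refine hf.trans ?_
    have h1 : Real.exp (-((m : ℝ) / (2 * (a : ℝ) ^ 2) * t)) / 2 ≤ 1 / 10 ^ 9 := by
      have e1 : (m : ℝ) / (2 * (a : ℝ) ^ 2) * t = 9872 / 200 := by
        rw [hmR]
        have : (t : ℝ) = a / 100 := by rw [haRt]; ring
        rw [this]
        field_simp
        norm_num
      rw [e1]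
      have e2 : Real.exp (-(9872 / 200)) ≤ (1 / 2) ^ 49 := by
        calc Real.exp (-(9872 / 200)) ≤ Real.exp ((49 : ℕ) * (-1)) :=
              Real.exp_le_exp.2 (by norm_num)
          _ = Real.exp (-1) ^ 49 := by rw [Real.exp_nat_mul]
          _ ≤ (1 / 2) ^ 49 := by
              apply pow_le_pow_left₀ (Real.exp_pos _).le
              rw [Real.exp_neg, one_div]
              apply inv_anti₀ (by norm_num)
              have := Real.add_one_le_exp (1 : ℝ)
              linarith
      calc _ ≤ (1 / 2 : ℝ) ^ 49 / 2 := by gcongr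
        _ ≤ 1 / 10 ^ 9 := by norm_num
    have h2 : Real.exp (-(2 / 10 ^ 6 * (a / 100))) * (ZZ a m *
        Real.exp ((2 / 10 ^ 6) ^ 2 / 4 * m + 32 * (2 / 10 ^ 6) ^ 2 * a +
          Real.exp (-((m : ℝ) / (2 * (a : ℝ) ^ 2) * t)) / 2 * a)) ≤
        ZZ a m * Real.exp (-(9 / 10 ^ 9 * a)) := by
      rw [mul_left_comm, ← Real.exp_add]
      apply mul_le_mul_of_nonneg_left _ (ZZ_pos a m).le
      apply Real.exp_le_exp.2
      have h3 := mul_le_mul_of_nonneg_right h1 haR.le
      rw [hmR] at h3 ⊢
      linarith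
    have h3 : (4 : ℝ) ^ m * ((8 + 1 / 4) ^ a * (8 + 1 / 4) ^ a * 16 ^ t) ≤
        ZZ a m * Real.exp (-(9 / 10 ^ 9 * a)) := by
      unfold ZZ
      refine le_trans (mul_le_mul_of_nonneg_left (c := 9 ^ a * 8 ^ a *
        Real.exp (-(9 / 10 ^ 9 * a))) ?_ (by positivity)) (le_of_eq (mul_assoc _ _ _).symm)
      have e0 : (8 + 1 / 4 : ℝ) = 33 / 4 := by norm_num
      have e1 : (8 + 1 / 4 : ℝ) ^ a * (8 + 1 / 4) ^ a * 16 ^ t = ((33 / 4) ^ 200 * 16) ^ t := by
        calc (8 + 1 / 4 : ℝ) ^ a * (8 + 1 / 4) ^ a * 16 ^ t = (33 / 4) ^ (200 * t) * 16 ^ t := by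
              rw [← pow_add, ha, e0, show 100 * t + 100 * t = 200 * t by ring]
          _ = ((33 / 4) ^ 200) ^ t * 16 ^ t := by rw [pow_mul]
          _ = _ := (mul_pow _ _ _).symm
      have e2 : ((9 : ℝ) ^ a * 8 ^ a) = (72 ^ 100) ^ t := by
        rw [← mul_pow, ha, pow_mul, show (9 : ℝ) * 8 = 72 by norm_num]
      have e3 : ((33 / 4 : ℝ) ^ 200 * 16) ≤ 72 ^ 100 * (1 / 10) := by norm_num
      have e4 : (1 / 10 : ℝ) ^ t ≤ Real.exp (-(9 / 10 ^ 9 * a)) := by
        have f1 : (1 / 10 : ℝ) ≤ Real.exp (-1) := by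
          rw [Real.exp_neg, one_div]
          apply inv_anti₀ (Real.exp_pos _)
          have := Real.exp_one_lt_d9
          linarith
        calc (1 / 10 : ℝ) ^ t ≤ Real.exp (-1) ^ t := pow_le_pow_left₀ (by norm_num) f1 t
          _ = Real.exp (t * (-1)) := (Real.exp_nat_mul _ _).symm
          _ ≤ _ := by
            apply Real.exp_le_exp.2
            rw [haRt]
            have : (0 : ℝ) ≤ t := Nat.cast_nonneg _
            linarith
      rw [e1, e2]
      calc ((33 / 4 : ℝ) ^ 200 * 16) ^ t ≤ (72 ^ 100 * (1 / 10)) ^ t :=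
            pow_le_pow_left₀ (by positivity) e3 t
        _ = (72 ^ 100) ^ t * (1 / 10) ^ t := mul_pow _ _ _
        _ ≤ _ := mul_le_mul_of_nonneg_left e4 (by positivity)
    calc _ ≤ 4 * (ZZ a m * Real.exp (-(9 / 10 ^ 9 * a))) +
          ZZ a m * Real.exp (-(9 / 10 ^ 9 * a)) := by linarith
      _ = _ := by ring
  set e := se f with he
  set A := univ.filter (Dom.Dm e) with hA
  set n := 1975200 * t + p with hn
  have hcardV : Fintype.card (Dom.V a (m + m) ⊕ Fin p) = n := by
    simp only [Fintype.card_sum, Fintype.card_prod, Fintype.card_fin]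
    omega
  have hszle : ∀ c : Dom.C a (m + m), Dom.sz c + p ≤ n := by
    intro c
    obtain ⟨S, rfl⟩ := (Dom.toC a (m + m)).surjective c
    rw [Dom.sz_toC]
    have h1 := card_le_univ S
    rw [Fintype.card_sum, Fintype.card_fin] at hcardV
    omega
  refine ⟨Dom.V a (m + m) ⊕ Fin p, inferInstance, (Dom.G e).sum ⊥, hcardV, fun k hk => ?_⟩
  -- the average
  have hfib := sum_fib A (fun c => Dom.sz c + p) n (fun c _ => hszle c)
  have havd : avd ((Dom.G e).sum (⊥ : SimpleGraph (Fin p))) =
      (∑ c ∈ A, ((Dom.sz c + p : ℕ) : ℝ)) / A.card := by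
    rw [avd_eq, hcardV]
    simp_rw [domCount_pad]
    rw [hfib.1, hfib.2]
  rw [havd]
  -- sizes
  have hD1 : ZZ a m ≤ (A.card : ℝ) := by
    have h0 := (Dom.mom1 a (m + m)).h0
    rw [Dom.gp_eval0] at h0
    have h1 : (Dom.D1 a (m + m)).card ≤ A.card := by
      apply card_le_card
      intro c hc
      rw [hA, mem_filter]
      exact ⟨mem_univ _, Dom.D1_sub e hc⟩
    have h2 : ((Dom.D1 a (m + m)).card : ℝ) ≤ A.card := by exact_mod_cast h1
    rw [h0] at h2
    exact le_trans (le_of_eq (ZZ_eq a m)) h2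
  have hBnd : ((Bad t (a / 100 : ℝ) f).card : ℝ) * ((n : ℝ) + 1) * 2 < A.card := by
    have hn' : (n : ℝ) + 1 ≤ 20000 * a := by
      have : n + 1 ≤ 20000 * a := by omega
      exact_mod_cast this
    have h1 := exp_small a ha23
    have hZ := ZZ_pos a m
    calc ((Bad t (a / 100 : ℝ) f).card : ℝ) * ((n : ℝ) + 1) * 2 ≤
        (ZZ a m * (5 * Real.exp (-(9 / 10 ^ 9 * a)))) * (20000 * a) * 2 := by gcongr
      _ = ZZ a m * (5 * Real.exp (-(9 / 10 ^ 9 * a)) * (20000 * a) * 2) := by ring
      _ < ZZ a m * 1 := by gcongr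
      _ ≤ A.card := by rw [mul_one]; exact hD1
  have hmm : ((m + m : ℕ) : ℝ) * (1 / 2) = 9872 * a := by
    push_cast; rw [hmR]; ring
  have hm1 : m1 a m = a * (23 / 9) + a * (11 / 4) + 9872 * a := by unfold m1; rw [hmm]
  have hm2 : m2 a m = a * (5 / 2) + a * (8 / 3) + 9872 * a := by unfold m2; rw [hmm]
  have hnR : (n : ℝ) = 19752 * a + p := by
    rw [hn]; push_cast; rw [haRt]; ring
  have key := gap_abstract A (P1 t f) (P2 t f) (Bad t (a / 100 : ℝ) f)
    (fun c => Dom.sz c + p) n (fun c _ => hszle c) (filter_subset _ _) (filter_subset _ _)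
    (by
      unfold Bad
      refine union_subset (union_subset ?_ ?_) (filter_subset _ _)
      · exact (filter_subset _ _).trans (filter_subset _ _)
      · exact (filter_subset _ _).trans (filter_subset _ _))
    (by
      intro c hc
      by_cases h1 : t ≤ (Dom.XX c.1).card
      · exact mem_union_left _ (mem_union_left _ (mem_filter.2 ⟨hc, h1⟩))
      · by_cases h2 : t ≤ (Dom.YY c.2.1).card
        · exact mem_union_left _ (mem_union_right _ (mem_filter.2 ⟨hc, h2⟩))
        · refine mem_union_right _ (mem_union_right _ (mem_filter.2 ⟨hc, ?_⟩))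
          exact ⟨not_le.1 h1, not_le.1 h2⟩)
    (card_P1_eq_P2 t f) (m1 a m + p) (m2 a m + p) (a / 100)
    (by
      intro c hc hcB
      by_contra hcon
      apply hcB
      unfold Bad
      refine mem_union_left _ (mem_union_left _ (mem_filter.2 ⟨hc, ?_⟩))
      push Not at hcon
      refine hcon.trans (le_of_eq ?_)
      congr 1
      push_cast
      ring)
    (by
      intro c hc hcB
      by_contra hcon
      apply hcB
      unfold Bad
      refine mem_union_left _ (mem_union_right _ (mem_filter.2 ⟨hc, ?_⟩))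
      push Not at hcon
      refine hcon.trans (le_of_eq ?_)
      congr 1
      push_cast
      ring)
    (by rw [hm1, hm2]; linarith)
    (by
      rw [hm2]
      have : (0 : ℝ) ≤ p := Nat.cast_nonneg _
      linarith)
    (by rw [hm1, hnR]; linarith)
    (by positivity) hBnd k
    (by
      intro i
      have := hk i
      rw [domCount_pad, domCount_pad] at this
      exact this)
  refine le_trans ?_ key
  rw [hm1, hm2]
  rw [haRt] at *
  linarith

/-- (1) Not every mode of the domination polynomial of a graph is at `⌊avd(G)⌋` or `⌈avd(G)⌉`; for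
some graph none of its modes is.
(2) For every `n ≥ 10 ^ 28` some graph `G` on `n` vertices satisfies
`|m - avd(G)| ≥ n / 500000` for all modes `m` of `D(G, x)`.
(3) `|m - avd(G)| ≤ n` for every graph `G` on `n` vertices and every mode `m`. -/
theorem result :
    (∃ (V : Type) (_ : Fintype V) (G : SimpleGraph V), (∃ m, IsMode G m) ∧
      ∀ m, IsMode G m → (m : ℤ) ≠ ⌊avd G⌋ ∧ (m : ℤ) ≠ ⌈avd G⌉) ∧
    (∀ n : ℕ, 10 ^ 28 ≤ n → ∃ (V : Type) (_ : Fintype V) (G : SimpleGraph V),
      Fintype.card V = n ∧ ∀ m, IsMode G m → (n : ℝ) / 500000 ≤ |(m : ℝ) - avd G|) ∧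
    (∀ (V : Type) (_ : Fintype V) (G : SimpleGraph V) (m : ℕ), IsMode G m →
      |(m : ℝ) - avd G| ≤ Fintype.card V) := by
  have h2 : ∀ n : ℕ, 10 ^ 28 ≤ n → ∃ (V : Type) (_ : Fintype V) (G : SimpleGraph V),
      Fintype.card V = n ∧ ∀ m, IsMode G m → (n : ℝ) / 500000 ≤ |(m : ℝ) - avd G| := by
    intro n hn
    obtain ⟨V, inst, G, hc, hG⟩ := main (n / 1975200) (n % 1975200) (by omega)
      (Nat.mod_lt _ (by norm_num))
    refine ⟨V, inst, G, by rw [hc]; exact Nat.div_add_mod n 1975200, fun m hm => ?_⟩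
    refine le_trans ?_ (hG m hm)
    have h1 : n ≤ 2000000 * (n / 1975200) := by omega
    have h2 : (n : ℝ) ≤ 2000000 * ((n / 1975200 : ℕ) : ℝ) := by exact_mod_cast h1
    rw [div_le_iff₀ (by norm_num)]
    linarith
  refine ⟨?_, h2, ?_⟩
  · obtain ⟨V, inst, G, hc, hG⟩ := h2 (10 ^ 28) le_rfl
    refine ⟨V, inst, G, exists_mode G, fun m hm => ?_⟩
    have h := hG m hm
    have h3 : (1 : ℝ) < |(m : ℝ) - avd G| := by
      refine lt_of_lt_of_le ?_ h
      norm_num
    constructor
    · intro he
      have h4 := Int.floor_le (avd G)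
      have h5 := Int.lt_floor_add_one (avd G)
      rw [← he] at h4 h5
      push_cast at h4 h5
      have : |(m : ℝ) - avd G| ≤ 1 := abs_le.2 ⟨by linarith, by linarith⟩
      linarith
    · intro he
      have h4 := Int.le_ceil (avd G)
      have h5 := Int.ceil_lt_add_one (avd G)
      rw [← he] at h4 h5
      push_cast at h4 h5
      have : |(m : ℝ) - avd G| ≤ 1 := abs_le.2 ⟨by linarith, by linarith⟩
      linarith
  · intro V inst G m hm
    have h1 := avd_mem G
    have h3 : (m : ℝ) ≤ Fintype.card V := by exact_mod_cast IsMode_le G m hm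
    have h4 : (0 : ℝ) ≤ m := Nat.cast_nonneg _
    exact abs_le.2 ⟨by linarith, by linarith⟩

end Pool.Agent.Results.MP_fd33cb_co.LinearGap
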